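import Mathlib
import Pool.Agent.H62.GolombDefs
import Pool.Agent.H62.GolombMult

set_option autoImplicit false

namespace Pool.Agent.Results.MP_ac9862_nt.Thresholds

open Pool.Agent.H62.Golomb

theorem result :
    (∀ r, 2 ≤ r → ∃! a, IsAlmostGolomb r a) ∧
    ∀ (A : ℕ → ℕ → ℕ) (G : ℕ → ℕ), (∀ r, 2 ≤ r → IsAlmostGolomb r (A r)) → IsGolomb G →
      ∀ k : ℕ, 4 ≤ k → ∃ j j' : ℕ,
        IsLeast {r | 2 ≤ r ∧ (k : ℕ∞) ≤ maxMult (A r)} j ∧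
        IsLeast {r | 2 ≤ r ∧ ((k + 1 : ℕ) : ℕ∞) ≤ maxMult (A r)} j' ∧
        j = ∑ n ∈ Finset.Icc 1 (k - 1), G n + 2 ∧ j' = j + G k := by
  refine ⟨fun _ hr => ⟨_, b_almost hr, fun _ h => h.eq_b hr⟩, fun A G hA hG k hk =>
    ⟨_, _, isLeast_threshold A G hA hG k hk, isLeast_threshold A G hA hG (k + 1) (by omega),
      rfl, ?_⟩⟩
  obtain ⟨k, rfl⟩ : ∃ j, k = j + 1 := ⟨k - 1, by omega⟩
  simp only [Nat.add_sub_cancel]
  rw [Finset.sum_Icc_succ_top (by omega)]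
  omega

end Pool.Agent.Results.MP_ac9862_nt.Thresholds
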